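import Pool.Agent.N463.MI.Stm

/-!
Project MI, part G03 (helper494): the packed quotient determines the coefficients.
-/

open Finset Polynomial

noncomputable section

namespace Pool.Agent.N463.MI

namespace G03aux

/-- evaluation at a real number -/
def ev (z : ℝ) (P : ℤ[X]) : ℝ := P.eval₂ (Int.castRingHom ℝ) z

theorem ev_add (z : ℝ) (P Q : ℤ[X]) : ev z (P + Q) = ev z P + ev z Q := eval₂_add _ _
theorem ev_sub (z : ℝ) (P Q : ℤ[X]) : ev z (P - Q) = ev z P - ev z Q := eval₂_sub _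
theorem ev_mul (z : ℝ) (P Q : ℤ[X]) : ev z (P * Q) = ev z P * ev z Q := eval₂_mul _ _
theorem ev_one (z : ℝ) : ev z 1 = 1 := eval₂_one _ _
theorem ev_Xpow (z : ℝ) (n : ℕ) : ev z (X ^ n) = z ^ n := eval₂_X_pow _ _
theorem ev_X (z : ℝ) : ev z X = z := eval₂_X _ _
theorem ev_C (z : ℝ) (c : ℤ) : ev z (C c) = (c : ℝ) := eval₂_C _ _

theorem tri (J : ℕ) : (J + 1) * (J + 2) / 2 = J * (J + 1) / 2 + (J + 1) := by
  have h : (J + 1) * (J + 2) = J * (J + 1) + (J + 1) * 2 := by ring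
  rw [h, Nat.add_mul_div_right _ _ (by norm_num)]

theorem pz_ev (a Z : ℕ) (hZ : 1 ≤ Z) (J : ℕ) :
    (pz a Z J : ℝ) = (Z : ℝ) ^ (J * (J + 1) / 2) * ev ((Z : ℝ)⁻¹) (pj (a : ℤ) J) := by
  have hZ0 : (Z : ℝ) ≠ 0 := by positivity
  induction J with
  | zero => simp [pz, pj, ev_one]
  | succ J ih =>
    have h1 : 1 ≤ Z ^ (J + 1) := Nat.one_le_pow _ _ (by omega)
    have e1 : (pz a Z (J + 1) : ℝ) = ((Z : ℝ) ^ (J + 1) - 1) * (pz a Z J : ℝ) + (a : ℝ) ^ (J + 1) := by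
      show (((Z ^ (J + 1) - 1) * pz a Z J + a ^ (J + 1) : ℕ) : ℝ) = _
      push_cast [Nat.cast_sub h1]
      ring
    have e2 : ev ((Z : ℝ)⁻¹) (pj (a : ℤ) (J + 1)) =
        (1 - ((Z : ℝ)⁻¹) ^ (J + 1)) * ev ((Z : ℝ)⁻¹) (pj (a : ℤ) J) +
          (a : ℝ) ^ (J + 1) * ((Z : ℝ)⁻¹) ^ ((J + 1) * (J + 2) / 2) := by
      show ev ((Z : ℝ)⁻¹) ((1 - X ^ (J + 1)) * pj (a : ℤ) J + C ((a : ℤ) ^ (J + 1)) * X ^ ((J + 1) * (J + 2) / 2)) = _
      rw [ev_add, ev_mul, ev_sub, ev_one, ev_Xpow, ev_mul, ev_C, ev_Xpow]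
      push_cast
      ring
    rw [e1, e2, ih]
    have e3 : (Z : ℝ) ^ ((J + 1) * (J + 1 + 1) / 2) = (Z : ℝ) ^ (J * (J + 1) / 2) * (Z : ℝ) ^ (J + 1) := by
      rw [show (J + 1) * (J + 1 + 1) / 2 = J * (J + 1) / 2 + (J + 1) from tri J, pow_add]
    have e4 : (Z : ℝ) ^ (J + 1) * ((Z : ℝ)⁻¹) ^ (J + 1) = 1 := by
      rw [← mul_pow, mul_inv_cancel₀ hZ0, one_pow]
    have e5 : (Z : ℝ) ^ ((J + 1) * (J + 1 + 1) / 2) * ((Z : ℝ)⁻¹) ^ ((J + 1) * (J + 2) / 2) = 1 := by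
      rw [show (J + 1) * (J + 1 + 1) / 2 = (J + 1) * (J + 2) / 2 from rfl, ← mul_pow, mul_inv_cancel₀ hZ0, one_pow]
    calc ((Z : ℝ) ^ (J + 1) - 1) * ((Z : ℝ) ^ (J * (J + 1) / 2) * ev ((Z : ℝ)⁻¹) (pj (a : ℤ) J)) + (a : ℝ) ^ (J + 1)
        = (Z : ℝ) ^ (J * (J + 1) / 2) * ((Z : ℝ) ^ (J + 1) - (Z : ℝ) ^ (J + 1) * ((Z : ℝ)⁻¹) ^ (J + 1)) *
            ev ((Z : ℝ)⁻¹) (pj (a : ℤ) J) + (a : ℝ) ^ (J + 1) * 1 := by rw [e4]; ring
      _ = (Z : ℝ) ^ (J * (J + 1) / 2) * ((Z : ℝ) ^ (J + 1) - (Z : ℝ) ^ (J + 1) * ((Z : ℝ)⁻¹) ^ (J + 1)) *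
            ev ((Z : ℝ)⁻¹) (pj (a : ℤ) J) + (a : ℝ) ^ (J + 1) *
            ((Z : ℝ) ^ ((J + 1) * (J + 1 + 1) / 2) * ((Z : ℝ)⁻¹) ^ ((J + 1) * (J + 2) / 2)) := by rw [e5]
      _ = _ := by rw [e3]; ring

theorem pz_pos (b Z : ℕ) (hZ : 2 ≤ Z) (J : ℕ) : 1 ≤ pz b Z J := by
  induction J with
  | zero => simp [pz]
  | succ J ih =>
    show 1 ≤ (Z ^ (J + 1) - 1) * pz b Z J + b ^ (J + 1)
    have h1 : 2 ≤ Z ^ (J + 1) := le_trans hZ (Nat.le_self_pow (by omega) Z)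
    have h2 : 1 ≤ Z ^ (J + 1) - 1 := by omega
    have := Nat.mul_le_mul h2 ih
    omega

theorem pz_le (b Z : ℕ) (hb : b ≤ 1) (hZ : 2 ≤ Z) (J : ℕ) : pz b Z J ≤ Z ^ (J * (J + 1) / 2) := by
  induction J with
  | zero => simp [pz]
  | succ J ih =>
    show (Z ^ (J + 1) - 1) * pz b Z J + b ^ (J + 1) ≤ _
    have h1 : 1 ≤ Z ^ (J + 1) := Nat.one_le_pow _ _ (by omega)
    have h2 : b ^ (J + 1) ≤ 1 := pow_le_one' hb _
    have h3 := pz_pos b Z hZ J
    have h4 : (Z ^ (J + 1) - 1) * pz b Z J + b ^ (J + 1) ≤ Z ^ (J + 1) * pz b Z J := by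
      rw [Nat.sub_mul, one_mul]
      have h5 : pz b Z J ≤ Z ^ (J + 1) * pz b Z J := Nat.le_mul_of_pos_left _ (by omega)
      omega
    refine h4.trans ?_
    rw [show (J + 1) * (J + 1 + 1) / 2 = J * (J + 1) / 2 + (J + 1) from tri J, pow_add (Z : ℕ) (J * (J + 1) / 2) (J + 1),
      mul_comm (Z ^ (J * (J + 1) / 2))]
    exact Nat.mul_le_mul_left _ ih

theorem key (x y w : ℤ) : |x - y + w| ≤ |x| + |y| + |w| := (abs_add_le _ _).trans (add_le_add (abs_sub _ _) le_rfl)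

/-- bound for partial sums of absolute values of coefficients -/
theorem abs_step (P : ℤ[X]) (K : ℤ) (hK : ∀ n, ∑ i ∈ range n, |P.coeff i| ≤ K) (k : ℕ) (c : ℤ) (e : ℕ) :
    ∀ n, ∑ i ∈ range n, |((1 - X ^ k) * P + C c * X ^ e).coeff i| ≤ 2 * K + |c| := by
  intro n
  have h1 : ∀ i, ((1 - X ^ k) * P + C c * X ^ e).coeff i =
      P.coeff i - (if k ≤ i then P.coeff (i - k) else 0) + (if i = e then c else 0) := by
    intro i
    rw [coeff_add, sub_mul, one_mul, coeff_sub, coeff_X_pow_mul', coeff_C_mul, coeff_X_pow]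
    by_cases h : i = e <;> simp [h]
  have h2 : ∑ i ∈ range n, |(if k ≤ i then P.coeff (i - k) else 0)| ≤ K := by
    rcases le_total n k with hnk | hnk
    · have : ∑ i ∈ range n, |(if k ≤ i then P.coeff (i - k) else 0)| = 0 := by
        refine Finset.sum_eq_zero fun i hi => ?_
        rw [if_neg (by have := Finset.mem_range.1 hi; omega)]; simp
      rw [this]
      simpa using hK 0
    · obtain ⟨m, rfl⟩ : ∃ m, n = k + m := ⟨n - k, by omega⟩
      rw [Finset.sum_range_add]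
      have h3 : ∑ i ∈ range k, |(if k ≤ i then P.coeff (i - k) else 0)| = 0 := by
        refine Finset.sum_eq_zero fun i hi => ?_
        rw [if_neg (by have := Finset.mem_range.1 hi; omega)]; simp
      rw [h3, zero_add]
      refine le_trans (le_of_eq ?_) (hK m)
      refine Finset.sum_congr rfl fun i _ => ?_
      rw [if_pos (by omega), Nat.add_sub_cancel_left]
  have h4 : ∑ i ∈ range n, |(if i = e then c else 0)| ≤ |c| := by
    have h5 : ∀ i, |(if i = e then c else 0)| = if i = e then |c| else 0 := by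
      intro i; split <;> simp
    simp only [h5]
    rw [Finset.sum_ite_eq']
    split
    · exact le_rfl
    · exact abs_nonneg c
  simp only [h1]
  refine (Finset.sum_le_sum fun i _ => key _ _ _).trans ?_
  rw [Finset.sum_add_distrib, Finset.sum_add_distrib]
  have h6 := hK n
  linarith

theorem sum_one (n : ℕ) : ∑ i ∈ range n, |(1 : ℤ[X]).coeff i| ≤ 1 := by
  have h5 : ∀ i, |(1 : ℤ[X]).coeff i| = if i = 0 then 1 else 0 := by
    intro i; rw [coeff_one]; split <;> simp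
  simp only [h5]
  rw [Finset.sum_ite_eq']
  split <;> norm_num

theorem abs_pj_b (b : ℕ) (hb : b ≤ 1) (J : ℕ) : ∀ n, ∑ i ∈ range n, |(pj (b : ℤ) J).coeff i| ≤ 2 ^ (J + 1) - 1 := by
  induction J with
  | zero => intro n; simpa [pj] using sum_one n
  | succ J ih =>
    intro n
    have h := abs_step (pj (b : ℤ) J) (2 ^ (J + 1) - 1) ih (J + 1) ((b : ℤ) ^ (J + 1)) ((J + 1) * (J + 2) / 2) n
    have h2 : |(b : ℤ) ^ (J + 1)| ≤ 1 := by
      rw [abs_of_nonneg (by positivity)]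
      exact pow_le_one₀ (by positivity) (by exact_mod_cast hb)
    refine le_trans h ?_
    rw [pow_succ 2 (J + 1)]
    linarith

theorem abs_pj_a (a : ℕ) (ha : a ≤ 3) (J : ℕ) : ∀ n, ∑ i ∈ range n, |(pj (a : ℤ) J).coeff i| ≤ (J + 1) * 3 ^ J := by
  induction J with
  | zero => intro n; simpa [pj] using sum_one n
  | succ J ih =>
    intro n
    have h := abs_step (pj (a : ℤ) J) ((J + 1) * 3 ^ J) ih (J + 1) ((a : ℤ) ^ (J + 1)) ((J + 1) * (J + 2) / 2) n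
    have h2 : |(a : ℤ) ^ (J + 1)| ≤ 3 ^ (J + 1) := by
      rw [abs_of_nonneg (by positivity)]
      exact pow_le_pow_left₀ (by positivity) (by exact_mod_cast ha) _
    refine le_trans h ?_
    have h3 : (0 : ℤ) ≤ (J + 1) * 3 ^ J := by positivity
    push_cast
    have h5 : (3 : ℤ) ^ (J + 1) = 3 * 3 ^ J := by ring
    have h6 : ((J : ℤ) + 1 + 1) * 3 ^ (J + 1) = 3 * ((J + 1) * 3 ^ J) + 3 ^ (J + 1) := by rw [h5]; ring
    rw [h6]
    linarith

theorem coeff_le {P : ℤ[X]} {K : ℤ} (h : ∀ n, ∑ i ∈ range n, |P.coeff i| ≤ K) (n : ℕ) : |P.coeff n| ≤ K := by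
  refine le_trans ?_ (h (n + 1))
  exact Finset.single_le_sum (f := fun i => |P.coeff i|) (fun i _ => abs_nonneg _) (Finset.mem_range.2 (by omega))

/-- bound for the evaluation -/
theorem ev_bound (z M : ℝ) (hz0 : 0 ≤ z) (hz : z ≤ 1 / 4) (Q : ℤ[X]) (hQ : ∀ i, |(Q.coeff i : ℝ)| ≤ M) :
    |ev z Q| ≤ M * (4 / 3) := by
  have hM : 0 ≤ M := (abs_nonneg _).trans (hQ 0)
  have e1 : ev z Q = ∑ i ∈ range (Q.natDegree + 1), (Q.coeff i : ℝ) * z ^ i := by
    unfold ev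
    rw [eval₂_eq_sum_range]
    rfl
  rw [e1]
  refine (Finset.abs_sum_le_sum_abs _ _).trans ?_
  have h2 : ∑ i ∈ range (Q.natDegree + 1), |(Q.coeff i : ℝ) * z ^ i| ≤ ∑ i ∈ range (Q.natDegree + 1), M * z ^ i := by
    refine Finset.sum_le_sum fun i _ => ?_
    rw [abs_mul, abs_of_nonneg (pow_nonneg hz0 i)]
    exact mul_le_mul_of_nonneg_right (hQ i) (pow_nonneg hz0 i)
  refine h2.trans ?_
  rw [← Finset.mul_sum]
  refine mul_le_mul_of_nonneg_left ?_ hM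
  have h3 : ∀ n : ℕ, ∑ i ∈ range n, z ^ i ≤ 4 / 3 - (4 / 3) * z ^ n + 0 := by
    intro n
    induction n with
    | zero => simp
    | succ n ih =>
      rw [Finset.sum_range_succ, pow_succ]
      have h4 : 0 ≤ z ^ n := pow_nonneg hz0 n
      nlinarith
  have h5 := h3 (Q.natDegree + 1)
  have h6 : 0 ≤ z ^ (Q.natDegree + 1) := pow_nonneg hz0 _
  linarith

/-- small values force vanishing coefficients -/
theorem vanish (z : ℝ) (hz0 : 0 < z) (hz : z ≤ 1 / 4) (D : ℕ) : ∀ (R : ℤ[X]), (∀ i, |(R.coeff i : ℝ)| ≤ z⁻¹ / 4) →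
    |ev z R| < z ^ D → ∀ m < D, R.coeff m = 0 := by
  induction D with
  | zero => intro R _ _ m hm; omega
  | succ D ih =>
    intro R hR hev
    have e1 : ev z R = ev z R.divX * z + (R.coeff 0 : ℝ) := by
      conv_lhs => rw [← divX_mul_X_add R]
      rw [ev_add, ev_mul, ev_X, ev_C]
    have hd : ∀ i, |((R.divX).coeff i : ℝ)| ≤ z⁻¹ / 4 := by
      intro i; rw [coeff_divX]; exact hR (i + 1)
    have h1 := ev_bound z (z⁻¹ / 4) hz0.le hz R.divX hd
    have h2 : |ev z R.divX * z| ≤ 1 / 3 := by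
      rw [abs_mul, abs_of_pos hz0]
      calc |ev z R.divX| * z ≤ (z⁻¹ / 4 * (4 / 3)) * z := mul_le_mul_of_nonneg_right h1 hz0.le
        _ = 1 / 3 := by field_simp
    have h3 : z ^ (D + 1) ≤ 1 / 4 := by
      rw [pow_succ]
      have : z ^ D ≤ 1 := pow_le_one₀ hz0.le (by linarith)
      nlinarith
    have h4 : |(R.coeff 0 : ℝ)| < 1 := by
      have : (R.coeff 0 : ℝ) = ev z R - ev z R.divX * z := by rw [e1]; ring
      rw [this]
      refine (abs_sub _ _).trans_lt ?_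
      linarith
    have h5 : R.coeff 0 = 0 := by
      have : |R.coeff 0| < 1 := by exact_mod_cast h4
      exact Int.abs_lt_one_iff.1 this
    have h6 : |ev z R.divX| < z ^ D := by
      have e2 : ev z R.divX * z = ev z R := by rw [e1, h5]; simp
      rw [← e2, abs_mul, abs_of_pos hz0, pow_succ] at hev
      exact lt_of_mul_lt_mul_right hev hz0.le
    intro m hm
    rcases m with _ | m
    · exact h5
    · have := ih R.divX hd h6 m (by omega)
      rwa [coeff_divX] at this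

end G03aux

open G03aux

theorem t_G03 : G03 := by
  intro a b Z J D d B ha hb hd hZ hq n hn
  have hB : 0 ≤ B := (abs_nonneg _).trans (hd 0)
  have hJ3 : (1 : ℤ) ≤ (J + 1) * 3 ^ J := by
    have h1 : (1 : ℤ) ≤ 3 ^ J := one_le_pow₀ (by norm_num)
    nlinarith [show (0 : ℤ) ≤ J by positivity]
  have h2B : (0 : ℤ) ≤ 2 ^ (J + 1) * B := by positivity
  have hZ4 : (4 : ℤ) ≤ Z := by linarith
  have hZ4' : 4 ≤ Z := by exact_mod_cast hZ4
  have hZR : (4 : ℝ) ≤ Z := by exact_mod_cast hZ4'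
  have hZ0 : (0 : ℝ) < Z := by linarith
  set z : ℝ := (Z : ℝ)⁻¹ with hz
  have hz0 : 0 < z := inv_pos.2 hZ0
  have hz4 : z ≤ 1 / 4 := by
    rw [hz, one_div]; exact inv_anti₀ (by norm_num) hZR
  have hzZ : z⁻¹ = Z := by rw [hz, inv_inv]
  have hzm : (Z : ℝ) * z = 1 := mul_inv_cancel₀ hZ0.ne'
  -- the polynomial C
  set Cp : ℤ[X] := ∑ k ∈ range (D + 1), C (d k) * X ^ k with hCp
  have hCc : ∀ k, Cp.coeff k = if k < D + 1 then d k else 0 := by
    intro k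
    rw [hCp, finsetSum_coeff]
    simp only [coeff_C_mul_X_pow]
    rw [Finset.sum_ite_eq]
    simp only [Finset.mem_range]
  have hCb : ∀ k, |Cp.coeff k| ≤ B := by
    intro k; rw [hCc]; split
    · exact hd k
    · simpa using hB
  have hCev : ev z Cp = z ^ D * ((∑ k ∈ range (D + 1), d k * (Z : ℤ) ^ (D - k) : ℤ) : ℝ) := by
    have : ev z Cp = ∑ k ∈ range (D + 1), (d k : ℝ) * z ^ k := by
      rw [hCp]; unfold ev; rw [eval₂_finsetSum]
      refine Finset.sum_congr rfl fun k _ => ?_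
      rw [eval₂_mul, eval₂_X_pow, eval₂_C]
      simp
    rw [this]
    push_cast
    rw [Finset.mul_sum]
    refine Finset.sum_congr rfl fun k hk => ?_
    have hkD : k ≤ D := by have := Finset.mem_range.1 hk; omega
    have e : z ^ D = z ^ k * z ^ (D - k) := by rw [← pow_add]; congr 1; omega
    have e2 : z ^ (D - k) * (Z : ℝ) ^ (D - k) = 1 := by rw [← mul_pow, mul_comm z, hzm, one_pow]
    calc (d k : ℝ) * z ^ k = (d k : ℝ) * z ^ k * (z ^ (D - k) * (Z : ℝ) ^ (D - k)) := by rw [e2, mul_one]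
      _ = _ := by rw [e]; ring
  set R : ℤ[X] := pj (a : ℤ) J - pj (b : ℤ) J * Cp with hR
  -- value of R
  set E : ℕ := J * (J + 1) / 2 with hE
  have hpa := pz_ev a Z (by omega) J
  have hpb := pz_ev b Z (by omega) J
  have hb1 := pz_pos b Z (by omega) J
  have hb2 := pz_le b Z hb (by omega) J
  set q : ℕ := Z ^ D * pz a Z J / pz b Z J with hqdef
  have q1 : pz b Z J * q ≤ Z ^ D * pz a Z J := Nat.mul_div_le _ _
  have q2 : Z ^ D * pz a Z J < pz b Z J * (q + 1) := by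
    rw [hqdef]; exact Nat.lt_mul_div_succ _ (by omega)
  have q1' : (pz b Z J : ℝ) * q ≤ (Z : ℝ) ^ D * pz a Z J := by exact_mod_cast q1
  have q2' : (Z : ℝ) ^ D * pz a Z J < (pz b Z J : ℝ) * (q + 1) := by exact_mod_cast q2
  have hCev' : ev z Cp = z ^ D * (q : ℝ) := by
    rw [hCev, ← hq]; simp
  have hRev : (Z : ℝ) ^ (E + D) * ev z R = (Z : ℝ) ^ D * pz a Z J - pz b Z J * q := by
    rw [hR, ev_sub, ev_mul, hCev', hpa, hpb, pow_add]
    have e2 : (Z : ℝ) ^ D * z ^ D = 1 := by rw [← mul_pow, hzm, one_pow]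
    calc (Z : ℝ) ^ E * (Z : ℝ) ^ D * (ev z (pj (a : ℤ) J) - ev z (pj (b : ℤ) J) * (z ^ D * (q : ℝ)))
        = (Z : ℝ) ^ E * (Z : ℝ) ^ D * ev z (pj (a : ℤ) J) -
            (Z : ℝ) ^ E * ev z (pj (b : ℤ) J) * ((Z : ℝ) ^ D * z ^ D) * (q : ℝ) := by ring
      _ = _ := by rw [e2]; ring
  have hRlt : |ev z R| < z ^ D := by
    have h0 : 0 ≤ ev z R := by
      have : 0 ≤ (Z : ℝ) ^ (E + D) * ev z R := by rw [hRev]; linarith
      exact nonneg_of_mul_nonneg_right this (by positivity)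
    rw [abs_of_nonneg h0]
    have h1 : (Z : ℝ) ^ (E + D) * ev z R < (Z : ℝ) ^ E := by
      rw [hRev]
      have : (pz b Z J : ℝ) ≤ (Z : ℝ) ^ E := by exact_mod_cast hb2
      linarith
    have e2 : (Z : ℝ) ^ D * z ^ D = 1 := by rw [← mul_pow, hzm, one_pow]
    have h2 : (Z : ℝ) ^ (E + D) * ev z R < (Z : ℝ) ^ (E + D) * z ^ D := by
      rw [pow_add, mul_assoc _ _ (z ^ D), e2, mul_one, ← pow_add]
      exact h1
    exact lt_of_mul_lt_mul_left h2 (by positivity)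
  have hRc : ∀ i, |(R.coeff i : ℝ)| ≤ z⁻¹ / 4 := by
    intro i
    have h1 : |R.coeff i| ≤ (J + 1) * 3 ^ J + 2 ^ (J + 1) * B := by
      rw [hR, coeff_sub]
      refine (abs_sub _ _).trans (add_le_add (coeff_le (abs_pj_a a ha J) i) ?_)
      rw [coeff_mul]
      refine (Finset.abs_sum_le_sum_abs _ _).trans ?_
      have h2 : ∑ p ∈ antidiagonal i, |(pj (b : ℤ) J).coeff p.1 * Cp.coeff p.2| ≤
          ∑ p ∈ antidiagonal i, |(pj (b : ℤ) J).coeff p.1| * B := by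
        refine Finset.sum_le_sum fun p _ => ?_
        rw [abs_mul]
        exact mul_le_mul_of_nonneg_left (hCb _) (abs_nonneg _)
      refine h2.trans ?_
      rw [Finset.Nat.sum_antidiagonal_eq_sum_range_succ_mk, ← Finset.sum_mul]
      refine mul_le_mul_of_nonneg_right ?_ hB
      have := abs_pj_b b hb J (i + 1)
      simp only at this ⊢
      linarith
    have h3 : 4 * |R.coeff i| ≤ (Z : ℤ) := by linarith
    have h4 : 4 * |(R.coeff i : ℝ)| ≤ (Z : ℝ) := by exact_mod_cast h3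
    rw [hzZ]; linarith
  have hfin := vanish z hz0 hz4 D R hRc hRlt n hn
  rw [hR, coeff_sub, sub_eq_zero, coeff_mul] at hfin
  rw [hfin]
  refine Finset.sum_congr rfl fun p hp => ?_
  have hp2 : p.2 ≤ n := by
    have := Finset.HasAntidiagonal.mem_antidiagonal.1 hp; omega
  rw [hCc, if_pos (by omega)]

end Pool.Agent.N463.MI
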